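import Pool.Agent.H580.DownSet

set_option autoImplicit false

namespace Pool.Agent.H580.DS

open Finset
open scoped Pointwise

/-- with every point, `A` contains all lattice points of the box spanned by it and the origin -/
def BoxStar {d : ℕ} (A : Finset (Fin d → ℤ)) : Prop :=
  ∀ x ∈ A, ∀ y : Fin d → ℤ, (∀ i, (0 ≤ y i ∧ y i ≤ x i) ∨ (x i ≤ y i ∧ y i ≤ 0)) → y ∈ A

/-- many sums from points of large rank -/
theorem rank_sum_int {d : ℕ} (A : Finset (Fin d → ℤ)) (hA : BoxStar A) :
    ∑ a ∈ A, ∏ i, (if a i = 0 then (1 : ℝ) else 2) ≤ ((A + A).card : ℝ) := by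
  classical
  have h1 : ∀ a : Fin d → ℤ, ∏ i, (if a i = 0 then (1 : ℝ) else 2) =
      (((univ.filter (fun i => a i ≠ 0)).powerset.card : ℕ) : ℝ) := by
    intro a
    rw [card_powerset, prod_ite, prod_const_one, one_mul, prod_const]
    push_cast
    rfl
  rw [sum_congr rfl (fun a _ => h1 a), ← Nat.cast_sum, ← card_sigma]
  rw [Nat.cast_le]
  apply card_le_card_of_injOn
    (fun s : (Σ _ : Fin d → ℤ, Finset (Fin d)) =>
      fun i => 2 * s.1 i - (if i ∈ s.2 then (s.1 i).sign else 0))
  · rintro ⟨a, e⟩ hs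
    rw [mem_coe, mem_sigma] at hs
    obtain ⟨ha, he⟩ := hs
    simp only [mem_powerset] at ha he
    rw [mem_coe, mem_add]
    refine ⟨a, ha, fun i => a i - (if i ∈ e then (a i).sign else 0), hA a ha _ ?_, ?_⟩
    · intro i
      by_cases hi : i ∈ e
      · simp only [if_pos hi]
        rcases lt_trichotomy (a i) 0 with h | h | h
        · rw [Int.sign_eq_neg_one_of_neg h]; right; constructor <;> omega
        · rw [h]; left; simp
        · rw [Int.sign_eq_one_of_pos h]; left; constructor <;> omega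
      · simp only [if_neg hi]
        rcases le_total 0 (a i) with h | h
        · left; constructor <;> omega
        · right; constructor <;> omega
    · funext i
      simp only [Pi.add_apply]
      ring
  · rintro ⟨a, e⟩ hs ⟨b, f⟩ ht h
    rw [mem_coe, mem_sigma] at hs ht
    obtain ⟨ha, he⟩ := hs
    obtain ⟨hb, hf⟩ := ht
    simp only [mem_powerset] at ha he hb hf
    have hi : ∀ i, a i = b i ∧ (i ∈ e ↔ i ∈ f) := by
      intro i
      have h3 := congrFun h i
      simp only at h3
      have hsa : (a i).sign = 0 ∧ a i = 0 ∨ (a i).sign = 1 ∧ 0 < a i ∨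
          (a i).sign = -1 ∧ a i < 0 := by
        rcases lt_trichotomy (a i) 0 with h | h | h
        · right; right; exact ⟨Int.sign_eq_neg_one_of_neg h, h⟩
        · left; rw [h]; simp
        · right; left; exact ⟨Int.sign_eq_one_of_pos h, h⟩
      have hsb : (b i).sign = 0 ∧ b i = 0 ∨ (b i).sign = 1 ∧ 0 < b i ∨
          (b i).sign = -1 ∧ b i < 0 := by
        rcases lt_trichotomy (b i) 0 with h | h | h
        · right; right; exact ⟨Int.sign_eq_neg_one_of_neg h, h⟩
        · left; rw [h]; simp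
        · right; left; exact ⟨Int.sign_eq_one_of_pos h, h⟩
      by_cases h4 : i ∈ e <;> by_cases h5 : i ∈ f
      · have h6 := (mem_filter.1 (he h4)).2
        have h7 := (mem_filter.1 (hf h5)).2
        rw [if_pos h4, if_pos h5] at h3
        refine ⟨by omega, by simp [h4, h5]⟩
      · have h6 := (mem_filter.1 (he h4)).2
        rw [if_pos h4, if_neg h5] at h3
        omega
      · have h7 := (mem_filter.1 (hf h5)).2
        rw [if_neg h4, if_pos h5] at h3
        omega
      · rw [if_neg h4, if_neg h5] at h3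
        refine ⟨by omega, by simp [h4, h5]⟩
    have h8 : a = b := funext fun i => (hi i).1
    have h9 : e = f := Finset.ext fun i => (hi i).2
    rw [h8, h9]

/-- signs -/
def sg (b : Bool) : ℤ := if b then 1 else -1

theorem sg_mul_self (b : Bool) : sg b * sg b = 1 := by cases b <;> simp [sg]

theorem natAbs_sg (b : Bool) (n : ℕ) : (sg b * (n : ℤ)).natAbs = n := by
  cases b <;> simp [sg]

/-- the part of `A` in the orthant of `s`, reflected into the positive orthant -/
def Dn {d : ℕ} (A : Finset (Fin d → ℤ)) (s : Fin d → Bool) : Finset (Fin d → ℕ) :=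
  (A.image (fun x i => (x i).natAbs)).filter (fun n => (fun i => sg (s i) * (n i : ℤ)) ∈ A)

theorem mem_Dn {d : ℕ} (A : Finset (Fin d → ℤ)) (s : Fin d → Bool) (n : Fin d → ℕ) :
    n ∈ Dn A s ↔ (fun i => sg (s i) * (n i : ℤ)) ∈ A := by
  unfold Dn
  rw [mem_filter, mem_image]
  constructor
  · exact fun h => h.2
  · intro h
    refine ⟨⟨_, h, ?_⟩, h⟩
    funext i
    exact natAbs_sg _ _

theorem Dn_down {d : ℕ} (A : Finset (Fin d → ℤ)) (hA : BoxStar A) (s : Fin d → Bool) :
    IsDown (Dn A s) := by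
  intro x hx y hy
  rw [mem_Dn] at hx ⊢
  apply hA _ hx
  intro i
  have := hy i
  have h2 : ((y i : ℕ) : ℤ) ≤ x i := by exact_mod_cast this
  cases s i
  · right
    simp only [sg]
    constructor <;> simp <;> omega
  · left
    simp only [sg]
    constructor <;> simp <;> omega

theorem Dn_add {d : ℕ} (A : Finset (Fin d → ℤ)) (s : Fin d → Bool) :
    (Dn A s + Dn A s).card ≤ (A + A).card := by
  apply card_le_card_of_injOn (fun n : Fin d → ℕ => (fun i => sg (s i) * (n i : ℤ)))
  · intro n hn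
    rw [mem_coe, mem_add] at hn
    obtain ⟨a, ha, b, hb, rfl⟩ := hn
    rw [mem_Dn] at ha hb
    rw [mem_coe, mem_add]
    refine ⟨_, ha, _, hb, ?_⟩
    funext i
    simp only [Pi.add_apply, Nat.cast_add]
    ring
  · intro n _ m _ h
    funext i
    have h1 := congrFun h i
    simp only at h1
    have h2 := congrArg Int.natAbs h1
    rwa [natAbs_sg, natAbs_sg] at h2

theorem Dn_card {d : ℕ} (A : Finset (Fin d → ℤ)) (s : Fin d → Bool) :
    ∑ a ∈ A, ∏ i, (if 0 ≤ sg (s i) * a i then (1 : ℝ) else 0) ≤ ((Dn A s).card : ℝ) := by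
  classical
  have h1 : ∀ a ∈ A, ∏ i, (if 0 ≤ sg (s i) * a i then (1 : ℝ) else 0) =
      if ∀ i, 0 ≤ sg (s i) * a i then (1 : ℝ) else 0 := by
    intro a _
    by_cases h : ∀ i, 0 ≤ sg (s i) * a i
    · rw [if_pos h]
      apply prod_eq_one
      intro i _
      rw [if_pos (h i)]
    · rw [if_neg h]
      push Not at h
      obtain ⟨i, hi⟩ := h
      apply prod_eq_zero (mem_univ i)
      rw [if_neg (by omega)]
  rw [sum_congr rfl h1, ← sum_filter, sum_const, nsmul_eq_mul, mul_one, Nat.cast_le]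
  apply card_le_card_of_injOn (fun x i => (x i).natAbs)
  · intro a ha
    rw [mem_coe, mem_filter] at ha
    rw [mem_coe, mem_Dn]
    have : (fun i => sg (s i) * (((a i).natAbs : ℕ) : ℤ)) = a := by
      funext i
      have h2 := ha.2 i
      cases hs : s i
      · rw [hs] at h2
        simp only [sg] at h2 ⊢
        simp at h2 ⊢
        rw [abs_of_nonpos h2]; ring
      · rw [hs] at h2
        simp only [sg] at h2 ⊢
        simp at h2 ⊢
        exact h2
    rw [this]
    exact ha.1
  · intro a ha b hb h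
    rw [mem_coe, mem_filter] at ha hb
    funext i
    have h1 := congrFun h i
    simp only at h1
    have h2 := ha.2 i
    have h3 := hb.2 i
    cases hs : s i
    · rw [hs] at h2 h3
      simp only [sg] at h2 h3
      simp at h2 h3
      omega
    · rw [hs] at h2 h3
      simp only [sg] at h2 h3
      simp at h2 h3
      omega

theorem exists_orthant {d : ℕ} (A : Finset (Fin d → ℤ)) (K : ℝ) (hK : 0 < K)
    (h : ∑ a ∈ A, ∏ i, (if a i = 0 then (1 : ℝ) else 2) ≤ K * A.card) :
    ∃ s : Fin d → Bool, (A.card : ℝ) ≤ K * (Dn A s).card := by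
  classical
  have h1 : ∑ s : Fin d → Bool, ∑ a ∈ A, ∏ i, (if 0 ≤ sg (s i) * a i then (1 : ℝ) else 0) =
      ∑ a ∈ A, ∏ i, (if a i = 0 then (2 : ℝ) else 1) := by
    rw [sum_comm]
    apply sum_congr rfl
    intro a _
    have h2 := (prod_univ_sum (fun _ : Fin d => (univ : Finset Bool))
      (fun i b => (if 0 ≤ sg b * a i then (1 : ℝ) else 0))).symm
    rw [Fintype.piFinset_univ] at h2
    rw [h2]
    apply prod_congr rfl
    intro i _
    rw [Fintype.sum_bool]
    simp only [sg]
    rcases lt_trichotomy (a i) 0 with h | h | h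
    · have h3 : ¬ (0 ≤ a i) := by omega
      have h4 : a i ≠ 0 := by omega
      have h5 : a i ≤ 0 := by omega
      simp [h3, h4, h5]
    · simp [h]; norm_num
    · have h3 : ¬ (a i ≤ 0) := by omega
      have h4 : a i ≠ 0 := by omega
      have h5 : 0 ≤ a i := by omega
      simp [h3, h4, h5]
  have h2 : ∀ a ∈ A, (2 : ℝ) ^ d * (2 * K - ∏ i, (if a i = 0 then (1 : ℝ) else 2)) ≤
      K ^ 2 * ∏ i, (if a i = 0 then (2 : ℝ) else 1) := by
    intro a _
    have h3 : (∏ i, (if a i = 0 then (2 : ℝ) else 1)) * ∏ i, (if a i = 0 then (1 : ℝ) else 2) =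
        2 ^ d := by
      rw [← prod_mul_distrib]
      have : ∀ i ∈ (univ : Finset (Fin d)), (if a i = 0 then (2 : ℝ) else 1) *
          (if a i = 0 then (1 : ℝ) else 2) = 2 := by
        intro i _
        split_ifs <;> norm_num
      rw [prod_congr rfl this, prod_const, card_univ, Fintype.card_fin]
    set g := ∏ i, (if a i = 0 then (1 : ℝ) else 2)
    have hh : 0 ≤ ∏ i, (if a i = 0 then (2 : ℝ) else 1) := by
      apply prod_nonneg
      intro i _
      split_ifs <;> norm_num
    set hq := ∏ i, (if a i = 0 then (2 : ℝ) else 1)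
    rw [← h3]
    nlinarith [mul_nonneg hh (sq_nonneg (K - g))]
  have h4 : (∑ s : Fin d → Bool, (A.card : ℝ)) ≤ ∑ s : Fin d → Bool, K * ((Dn A s).card : ℝ) := by
    have h5 := sum_le_sum h2
    rw [← mul_sum, ← mul_sum] at h5
    have e1 : ∑ a ∈ A, (2 * K - ∏ i, (if a i = 0 then (1 : ℝ) else 2)) =
        2 * K * A.card - ∑ a ∈ A, ∏ i, (if a i = 0 then (1 : ℝ) else 2) := by
      rw [sum_sub_distrib, sum_const, nsmul_eq_mul]
      ring
    rw [e1] at h5
    have h6 : (2 : ℝ) ^ d * (K * A.card) ≤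
        K ^ 2 * ∑ a ∈ A, ∏ i, (if a i = 0 then (2 : ℝ) else 1) := by
      refine le_trans ?_ h5
      apply mul_le_mul_of_nonneg_left _ (by positivity)
      linarith
    have h7 : ∑ a ∈ A, ∏ i, (if a i = 0 then (2 : ℝ) else 1) ≤
        ∑ s : Fin d → Bool, ((Dn A s).card : ℝ) := by
      rw [← h1]
      exact sum_le_sum (fun s _ => Dn_card A s)
    rw [sum_const, card_univ, nsmul_eq_mul, ← mul_sum]
    have h8 : ((Fintype.card (Fin d → Bool) : ℕ) : ℝ) = 2 ^ d := by
      rw [Fintype.card_fun, Fintype.card_bool, Fintype.card_fin]; push_cast; rfl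
    rw [h8]
    have h9 : K * ((2 : ℝ) ^ d * A.card) ≤
        K * (K * ∑ s : Fin d → Bool, ((Dn A s).card : ℝ)) := by
      calc K * ((2 : ℝ) ^ d * A.card) = (2 : ℝ) ^ d * (K * A.card) := by ring
        _ ≤ _ := h6
        _ ≤ K ^ 2 * ∑ s : Fin d → Bool, ((Dn A s).card : ℝ) :=
          mul_le_mul_of_nonneg_left h7 (by positivity)
        _ = _ := by ring
    exact le_of_mul_le_mul_left h9 hK
  obtain ⟨s, _, hs⟩ := exists_le_of_sum_le univ_nonempty h4
  exact ⟨s, hs⟩

/-- PFR for sets which are star-shaped for boxes -/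
theorem core_int {d : ℕ} (A : Finset (Fin d → ℤ)) (hne : A.Nonempty) (hA : BoxStar A) (K : ℝ)
    (hK : ((A + A).card : ℝ) ≤ K * A.card) :
    ∃ (s : Fin d → Bool) (x : Fin d → ℕ), (fun i => sg (s i) * (x i : ℤ)) ∈ A ∧
      (A.card : ℝ) ≤ K ^ 15 * ∏ i, ((x i : ℝ) + 1) ∧
      (3 / 2 : ℝ) ^ (univ.filter (fun i => x i ≠ 0)).card ≤ K ^ 16 := by
  classical
  have hc : (0 : ℝ) < A.card := by exact_mod_cast card_pos.2 hne
  have hcc : (A.card : ℝ) ≤ ((A + A).card : ℝ) := by
    exact_mod_cast card_le_card_add_right hne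
  have hK1 : 1 ≤ K := by
    by_contra hh
    push Not at hh
    nlinarith
  have hK0 : 0 < K := by linarith
  obtain ⟨s, hs⟩ := exists_orthant A K hK0 ((rank_sum_int A hA).trans hK)
  have hDne : (Dn A s).Nonempty := by
    rw [nonempty_iff_ne_empty]
    intro h
    rw [h, card_empty, Nat.cast_zero, mul_zero] at hs
    linarith
  have hD : (((Dn A s) + (Dn A s)).card : ℝ) ≤ K ^ 2 * (Dn A s).card := by
    have h1 : (((Dn A s) + (Dn A s)).card : ℝ) ≤ ((A + A).card : ℝ) := by
      exact_mod_cast Dn_add A s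
    calc _ ≤ _ := h1
      _ ≤ K * A.card := hK
      _ ≤ K * (K * (Dn A s).card) := mul_le_mul_of_nonneg_left hs hK0.le
      _ = _ := by ring
  obtain ⟨x, hx, h1, h2⟩ := core (Dn A s) hDne (Dn_down A hA s) (K ^ 2) hD
  refine ⟨s, x, (mem_Dn A s x).1 hx, ?_, ?_⟩
  · calc (A.card : ℝ) ≤ K * (Dn A s).card := hs
      _ ≤ K * ((K ^ 2) ^ 7 * ∏ i, ((x i : ℝ) + 1)) := mul_le_mul_of_nonneg_left h1 hK0.le
      _ = _ := by ring
  · calc _ ≤ (K ^ 2) ^ 8 := h2
      _ = _ := by ring

end Pool.Agent.H580.DS
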