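import Mathlib

set_option autoImplicit false

namespace Pool.Agent.H580.DS

open Finset
open scoped Pointwise

/-- one-dimensional inequality -/
theorem sum_inv_sqrt (n : ℕ) : ∑ j ∈ range n, 1 / √((j : ℝ) + 1) ≤ 2 * √(n : ℝ) := by
  induction n with
  | zero => simp
  | succ n ih =>
    rw [sum_range_succ]
    have h1 : 0 < √((n : ℝ) + 1) := Real.sqrt_pos.2 (by positivity)
    have h2 : √((n : ℝ) + 1) ^ 2 = (n : ℝ) + 1 := Real.sq_sqrt (by positivity)
    have h3 : √(n : ℝ) ^ 2 = (n : ℝ) := Real.sq_sqrt (by positivity)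
    have h4 : √(n : ℝ) ≤ √((n : ℝ) + 1) := Real.sqrt_le_sqrt (by linarith)
    have h5 : 0 ≤ √(n : ℝ) := Real.sqrt_nonneg _
    have h6 : 1 / √((n : ℝ) + 1) ≤ 2 * √((n : ℝ) + 1) - 2 * √(n : ℝ) := by
      rw [div_le_iff₀ h1]
      nlinarith [sq_nonneg (√((n : ℝ) + 1) - √(n : ℝ))]
    push_cast
    linarith

theorem pair_bound (a b c : ℕ → ℝ) (ha : Antitone a) (hb : Antitone b) (ha0 : ∀ i, 0 ≤ a i)
    (hb0 : ∀ i, 0 ≤ b i)
    (h : ∀ i j, a i * b j * (√((i : ℝ) + 1) * √((j : ℝ) + 1)) ≤ c (i + j)) (N j : ℕ) (hj : j ≤ N) :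
    a N * b j * (√((N : ℝ) + 1) * √((j : ℝ) + 1)) ≤ 2 * c N := by
  have h1 := h (N - j / 2) (j / 2)
  have e : N - j / 2 + j / 2 = N := by omega
  rw [e] at h1
  have h2 : a N ≤ a (N - j / 2) := ha (Nat.sub_le _ _)
  have h3 : b j ≤ b (j / 2) := hb (Nat.div_le_self _ _)
  have h4 : √((N : ℝ) + 1) ≤ √2 * √(((N - j / 2 : ℕ) : ℝ) + 1) := by
    rw [← Real.sqrt_mul (by norm_num)]
    apply Real.sqrt_le_sqrt
    have : N + 1 ≤ 2 * ((N - j / 2) + 1) := by omega
    exact_mod_cast this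
  have h5 : √((j : ℝ) + 1) ≤ √2 * √(((j / 2 : ℕ) : ℝ) + 1) := by
    rw [← Real.sqrt_mul (by norm_num)]
    apply Real.sqrt_le_sqrt
    have : j + 1 ≤ 2 * ((j / 2) + 1) := by omega
    exact_mod_cast this
  have h6 : √2 * √2 = (2 : ℝ) := Real.mul_self_sqrt (by norm_num)
  have p1 := Real.sqrt_nonneg (((N - j / 2 : ℕ) : ℝ) + 1)
  have p2 := Real.sqrt_nonneg (((j / 2 : ℕ) : ℝ) + 1)
  have h7 : √((N : ℝ) + 1) * √((j : ℝ) + 1) ≤
      2 * (√(((N - j / 2 : ℕ) : ℝ) + 1) * √(((j / 2 : ℕ) : ℝ) + 1)) := by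
    calc √((N : ℝ) + 1) * √((j : ℝ) + 1) ≤
        (√2 * √(((N - j / 2 : ℕ) : ℝ) + 1)) * (√2 * √(((j / 2 : ℕ) : ℝ) + 1)) :=
          mul_le_mul h4 h5 (Real.sqrt_nonneg _) (by positivity)
      _ = (√2 * √2) * (√(((N - j / 2 : ℕ) : ℝ) + 1) * √(((j / 2 : ℕ) : ℝ) + 1)) := by ring
      _ = _ := by rw [h6]
  calc a N * b j * (√((N : ℝ) + 1) * √((j : ℝ) + 1))
      ≤ (a (N - j / 2) * b (j / 2)) *
        (2 * (√(((N - j / 2 : ℕ) : ℝ) + 1) * √(((j / 2 : ℕ) : ℝ) + 1))) := by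
        apply mul_le_mul (mul_le_mul h2 h3 (hb0 _) (ha0 _)) h7 (by positivity)
        exact mul_nonneg (ha0 _) (hb0 _)
    _ ≤ 2 * c N := by nlinarith

theorem row_bound (a b c : ℕ → ℝ) (ha : Antitone a) (hb : Antitone b) (ha0 : ∀ i, 0 ≤ a i)
    (hb0 : ∀ i, 0 ≤ b i)
    (h : ∀ i j, a i * b j * (√((i : ℝ) + 1) * √((j : ℝ) + 1)) ≤ c (i + j)) (N : ℕ) :
    a N * ∑ j ∈ range (N + 1), b j ≤ 4 * c N := by
  have hN : 0 < √((N : ℝ) + 1) := Real.sqrt_pos.2 (by positivity)
  have hc : 0 ≤ c N := by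
    have := h N 0
    rw [add_zero] at this
    refine le_trans ?_ this
    have := ha0 N
    have := hb0 0
    positivity
  have h1 : ∀ j ∈ range (N + 1), a N * b j ≤ (2 * c N / √((N : ℝ) + 1)) * (1 / √((j : ℝ) + 1)) := by
    intro j hj
    have hj' : j ≤ N := by simpa [Nat.lt_succ_iff] using hj
    have h2 := pair_bound a b c ha hb ha0 hb0 h N j hj'
    have hp : 0 < √((j : ℝ) + 1) := Real.sqrt_pos.2 (by positivity)
    rw [div_mul_div_comm, mul_one, le_div_iff₀ (by positivity)]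
    exact h2
  rw [mul_sum]
  refine (sum_le_sum h1).trans ?_
  rw [← mul_sum]
  have h3 := sum_inv_sqrt (N + 1)
  push_cast at h3
  calc (2 * c N / √((N : ℝ) + 1)) * ∑ j ∈ range (N + 1), 1 / √((j : ℝ) + 1)
      ≤ (2 * c N / √((N : ℝ) + 1)) * (2 * √((N : ℝ) + 1)) :=
        mul_le_mul_of_nonneg_left h3 (by positivity)
    _ = 4 * c N := by field_simp; ring

theorem oneD (a b c : ℕ → ℝ) (ha : Antitone a) (hb : Antitone b) (ha0 : ∀ i, 0 ≤ a i)
    (hb0 : ∀ i, 0 ≤ b i)
    (h : ∀ i j, a i * b j * (√((i : ℝ) + 1) * √((j : ℝ) + 1)) ≤ c (i + j)) (N : ℕ) :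
    (∑ i ∈ range N, (if i = 0 then 1 else 1 / 8) * a i) *
      (∑ j ∈ range N, (if j = 0 then 1 else 1 / 8) * b j) ≤ ∑ k ∈ range N, c k := by
  induction N with
  | zero => simp
  | succ N ih =>
    rw [sum_range_succ, sum_range_succ, sum_range_succ]
    rcases Nat.eq_zero_or_pos N with rfl | hN
    · have := h 0 0
      simp at this
      simp
      exact this
    have hN' : N ≠ 0 := by omega
    rw [if_neg hN']
    have r1 := row_bound a b c ha hb ha0 hb0 h N
    have r2 := row_bound b a c hb ha hb0 ha0 (by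
      intro i j
      have := h j i
      rw [add_comm i j]
      linarith) N
    rw [sum_range_succ] at r1 r2
    have s1 : ∑ i ∈ range N, (if i = 0 then 1 else 1 / 8) * a i ≤ ∑ i ∈ range N, a i := by
      apply sum_le_sum
      intro i _
      have := ha0 i
      split_ifs <;> linarith
    have s2 : ∑ i ∈ range N, (if i = 0 then 1 else 1 / 8) * b i ≤ ∑ i ∈ range N, b i := by
      apply sum_le_sum
      intro i _
      have := hb0 i
      split_ifs <;> linarith
    have q1 := mul_le_mul_of_nonneg_left s2 (ha0 N)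
    have q2 := mul_le_mul_of_nonneg_left s1 (hb0 N)
    have q3 : 0 ≤ a N * b N := mul_nonneg (ha0 N) (hb0 N)
    nlinarith


/-! slices -/

/-- the slice `x 0 = i` -/
def sl {d : ℕ} (A : Finset (Fin (d + 1) → ℕ)) (i : ℕ) : Finset (Fin d → ℕ) :=
  (A.filter (fun x => x 0 = i)).image Fin.tail

theorem mem_sl {d : ℕ} (A : Finset (Fin (d + 1) → ℕ)) (i : ℕ) (y : Fin d → ℕ) :
    y ∈ sl A i ↔ (Fin.cons i y : Fin (d + 1) → ℕ) ∈ A := by
  unfold sl
  rw [mem_image]
  constructor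
  · rintro ⟨x, hx, rfl⟩
    rw [mem_filter] at hx
    obtain ⟨h1, rfl⟩ := hx
    rwa [Fin.cons_self_tail]
  · intro h
    exact ⟨Fin.cons i y, by rw [mem_filter]; exact ⟨h, rfl⟩, by simp⟩

theorem sum_slices {d : ℕ} (A : Finset (Fin (d + 1) → ℕ)) (N : ℕ) (hN : ∀ x ∈ A, x 0 < N)
    (F : (Fin (d + 1) → ℕ) → ℝ) :
    ∑ x ∈ A, F x = ∑ i ∈ range N, ∑ y ∈ sl A i, F (Fin.cons i y) := by
  have h1 : ∀ x ∈ A, x 0 ∈ range N := fun x hx => mem_range.2 (hN x hx)
  rw [← sum_fiberwise_of_maps_to h1]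
  apply sum_congr rfl
  intro i _
  unfold sl
  rw [sum_image]
  · apply sum_congr rfl
    intro x hx
    rw [mem_filter] at hx
    obtain ⟨_, rfl⟩ := hx
    rw [Fin.cons_self_tail]
  · intro x hx y hy hxy
    rw [mem_coe, mem_filter] at hx hy
    rw [← Fin.cons_self_tail x, ← Fin.cons_self_tail y, hx.2, hy.2, hxy]

theorem card_slices {d : ℕ} (A : Finset (Fin (d + 1) → ℕ)) (N : ℕ) (hN : ∀ x ∈ A, x 0 < N) :
    (A.card : ℝ) = ∑ i ∈ range N, ((sl A i).card : ℝ) := by
  have := sum_slices A N hN (fun _ => 1)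
  simpa using this

/-- down-sets -/
def IsDown {d : ℕ} (A : Finset (Fin d → ℕ)) : Prop := ∀ x ∈ A, ∀ y, y ≤ x → y ∈ A

theorem sl_down {d : ℕ} {A : Finset (Fin (d + 1) → ℕ)} (hA : IsDown A) (i : ℕ) :
    IsDown (sl A i) := by
  intro x hx y hy
  rw [mem_sl] at hx ⊢
  exact hA _ hx _ (Fin.cons_le_cons.2 ⟨le_rfl, hy⟩)

theorem sl_anti {d : ℕ} {A : Finset (Fin (d + 1) → ℕ)} (hA : IsDown A) {i j : ℕ} (h : i ≤ j) :
    sl A j ⊆ sl A i := by
  intro x hx
  rw [mem_sl] at hx ⊢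
  exact hA _ hx _ (Fin.cons_le_cons.2 ⟨h, le_rfl⟩)

theorem sl_add {d : ℕ} (A B : Finset (Fin (d + 1) → ℕ)) (i j : ℕ) :
    sl A i + sl B j ⊆ sl (A + B) (i + j) := by
  intro z hz
  rw [mem_add] at hz
  obtain ⟨x, hx, y, hy, rfl⟩ := hz
  rw [mem_sl] at hx hy ⊢
  have : (Fin.cons (i + j) (x + y) : Fin (d + 1) → ℕ) =
      (Fin.cons i x : Fin (d + 1) → ℕ) + Fin.cons j y := by
    funext k
    refine Fin.cases ?_ (fun k => ?_) k <;> simp
  rw [this]
  exact add_mem_add hx hy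

/-- weighted size -/
noncomputable def W {d : ℕ} (A : Finset (Fin d → ℕ)) : ℝ :=
  ∑ x ∈ A, ∏ i, (if x i = 0 then (1 : ℝ) else 1 / 8)

theorem W_nonneg {d : ℕ} (A : Finset (Fin d → ℕ)) : 0 ≤ W A := by
  unfold W
  apply sum_nonneg
  intro x _
  apply prod_nonneg
  intro i _
  split_ifs <;> norm_num

theorem W_mono {d : ℕ} {A B : Finset (Fin d → ℕ)} (h : A ⊆ B) : W A ≤ W B := by
  unfold W
  apply sum_le_sum_of_subset_of_nonneg h
  intro x _ _
  apply prod_nonneg
  intro i _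
  split_ifs <;> norm_num

theorem W_slices {d : ℕ} (A : Finset (Fin (d + 1) → ℕ)) (N : ℕ) (hN : ∀ x ∈ A, x 0 < N) :
    W A = ∑ i ∈ range N, (if i = 0 then 1 else 1 / 8) * W (sl A i) := by
  unfold W
  rw [sum_slices A N hN]
  apply sum_congr rfl
  intro i _
  rw [mul_sum]
  apply sum_congr rfl
  intro y _
  rw [Fin.prod_univ_succ]
  simp

/-- the main inequality -/
theorem main (d : ℕ) : ∀ (A B : Finset (Fin d → ℕ)) (p q : ℝ), 0 ≤ p → 0 ≤ q →
    IsDown A → IsDown B → (∀ x ∈ A, ∏ i, √((x i : ℝ) + 1) ≤ p) →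
    (∀ x ∈ B, ∏ i, √((x i : ℝ) + 1) ≤ q) → W A * W B ≤ ((A + B).card : ℝ) * (p * q) := by
  induction d with
  | zero =>
    intro A B p q hp hq _ _ hA hB
    rcases A.eq_empty_or_nonempty with rfl | ⟨x, hx⟩
    · simp [W]
    rcases B.eq_empty_or_nonempty with rfl | ⟨y, hy⟩
    · simp [W]
    have h1 : A = {x} := by
      ext z; rw [mem_singleton]
      exact ⟨fun _ => Subsingleton.elim _ _, fun h => h ▸ hx⟩
    have h2 : B = {y} := by
      ext z; rw [mem_singleton]
      exact ⟨fun _ => Subsingleton.elim _ _, fun h => h ▸ hy⟩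
    have h3 := hA x hx
    have h4 := hB y hy
    simp only [Finset.univ_eq_empty, Finset.prod_empty] at h3 h4
    rw [h1, h2]
    simp only [W, sum_singleton, Finset.univ_eq_empty, Finset.prod_empty, singleton_add_singleton,
      card_singleton, Nat.cast_one]
    nlinarith
  | succ d ih =>
    intro A B p q hp hq hdA hdB hA hB
    obtain ⟨N, hN⟩ : ∃ N, (∀ x ∈ A, x 0 < N) ∧ (∀ x ∈ B, x 0 < N) := by
      refine ⟨(A ∪ B).sup (fun x => x 0) + 1, ?_, ?_⟩
      · intro x hx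
        exact Nat.lt_succ_of_le (Finset.le_sup (f := fun x : Fin (d + 1) → ℕ => x 0)
          (mem_union_left _ hx))
      · intro x hx
        exact Nat.lt_succ_of_le (Finset.le_sup (f := fun x : Fin (d + 1) → ℕ => x 0)
          (mem_union_right _ hx))
    have hAB : ∀ x ∈ A + B, x 0 < N + N := by
      intro x hx
      rw [mem_add] at hx
      obtain ⟨a, ha, b, hb, rfl⟩ := hx
      have := hN.1 a ha
      have := hN.2 b hb
      simp only [Pi.add_apply]
      omega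
    rw [W_slices A N hN.1, W_slices B N hN.2, card_slices (A + B) (N + N) hAB]
    have e0 : (∑ i ∈ range (N + N), ((sl (A + B) i).card : ℝ)) * (p * q) =
        ∑ i ∈ range (N + N), ((sl (A + B) i).card : ℝ) * (p * q) := sum_mul _ _ _
    rw [e0]
    have key := oneD (fun i => W (sl A i)) (fun i => W (sl B i))
      (fun k => ((sl (A + B) k).card : ℝ) * (p * q))
      (fun i j h => W_mono (sl_anti hdA h)) (fun i j h => W_mono (sl_anti hdB h))
      (fun i => W_nonneg _) (fun i => W_nonneg _) ?_ N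
    · refine key.trans ?_
      apply sum_le_sum_of_subset_of_nonneg
      · intro i hi
        rw [mem_range] at hi ⊢
        omega
      · intro i _ _
        positivity
    · intro i j
      have hi : 0 < √((i : ℝ) + 1) := Real.sqrt_pos.2 (by positivity)
      have hj : 0 < √((j : ℝ) + 1) := Real.sqrt_pos.2 (by positivity)
      have h1 := ih (sl A i) (sl B j) (p / √((i : ℝ) + 1)) (q / √((j : ℝ) + 1))
        (by positivity) (by positivity) (sl_down hdA i) (sl_down hdB j) ?_ ?_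
      · have h2 : ((sl A i + sl B j).card : ℝ) ≤ ((sl (A + B) (i + j)).card : ℝ) := by
          exact_mod_cast card_le_card (sl_add A B i j)
        have h3 : p / √((i : ℝ) + 1) * (q / √((j : ℝ) + 1)) * (√((i : ℝ) + 1) * √((j : ℝ) + 1)) =
            p * q := by
          field_simp
        calc W (sl A i) * W (sl B j) * (√((i : ℝ) + 1) * √((j : ℝ) + 1))
            ≤ ((sl A i + sl B j).card : ℝ) * (p / √((i : ℝ) + 1) * (q / √((j : ℝ) + 1))) *
              (√((i : ℝ) + 1) * √((j : ℝ) + 1)) := by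
              apply mul_le_mul_of_nonneg_right h1 (by positivity)
          _ = ((sl A i + sl B j).card : ℝ) * (p * q) := by rw [mul_assoc, h3]
          _ ≤ _ := mul_le_mul_of_nonneg_right h2 (by positivity)
      · intro x hx
        rw [mem_sl] at hx
        have := hA _ hx
        rw [Fin.prod_univ_succ] at this
        simp only [Fin.cons_zero, Fin.cons_succ] at this
        rw [le_div_iff₀ hi]
        linarith
      · intro x hx
        rw [mem_sl] at hx
        have := hB _ hx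
        rw [Fin.prod_univ_succ] at this
        simp only [Fin.cons_zero, Fin.cons_succ] at this
        rw [le_div_iff₀ hj]
        linarith


/-- many sums from points of large rank -/
theorem rank_sum {d : ℕ} (A : Finset (Fin d → ℕ)) (hA : IsDown A) :
    ∑ a ∈ A, ∏ i, (if a i = 0 then (1 : ℝ) else 2) ≤ ((A + A).card : ℝ) := by
  classical
  have h1 : ∀ a : Fin d → ℕ, ∏ i, (if a i = 0 then (1 : ℝ) else 2) =
      (((univ.filter (fun i => a i ≠ 0)).powerset.card : ℕ) : ℝ) := by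
    intro a
    rw [card_powerset, prod_ite, prod_const_one, one_mul, prod_const]
    push_cast
    rfl
  rw [sum_congr rfl (fun a _ => h1 a), ← Nat.cast_sum, ← card_sigma]
  rw [Nat.cast_le]
  apply card_le_card_of_injOn
    (fun s : (Σ _ : Fin d → ℕ, Finset (Fin d)) =>
      fun i => 2 * s.1 i - (if i ∈ s.2 then 1 else 0))
  · rintro ⟨a, e⟩ hs
    rw [mem_coe, mem_sigma] at hs
    obtain ⟨ha, he⟩ := hs
    simp only [mem_powerset] at ha he
    rw [mem_coe, mem_add]
    refine ⟨a, ha, fun i => a i - (if i ∈ e then 1 else 0), hA a ha _ ?_, ?_⟩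
    · intro i
      exact Nat.sub_le _ _
    · funext i
      by_cases hi : i ∈ e
      · have := he hi
        rw [mem_filter] at this
        have h2 := this.2
        simp only [Pi.add_apply, if_pos hi]
        omega
      · simp only [Pi.add_apply, if_neg hi]
        omega
  · rintro ⟨a, e⟩ hs ⟨b, f⟩ ht h
    rw [mem_coe, mem_sigma] at hs ht
    obtain ⟨ha, he⟩ := hs
    obtain ⟨hb, hf⟩ := ht
    simp only [mem_powerset] at ha he hb hf
    have hi : ∀ i, a i = b i ∧ (i ∈ e ↔ i ∈ f) := by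
      intro i
      have h3 := congrFun h i
      simp only at h3
      by_cases h4 : i ∈ e <;> by_cases h5 : i ∈ f
      · have h6 := (mem_filter.1 (he h4)).2
        have h7 := (mem_filter.1 (hf h5)).2
        rw [if_pos h4, if_pos h5] at h3
        refine ⟨by omega, by simp [h4, h5]⟩
      · have h6 := (mem_filter.1 (he h4)).2
        rw [if_pos h4, if_neg h5] at h3
        omega
      · have h7 := (mem_filter.1 (hf h5)).2
        rw [if_neg h4, if_pos h5] at h3
        omega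
      · rw [if_neg h4, if_neg h5] at h3
        refine ⟨by omega, by simp [h4, h5]⟩
    have h8 : a = b := funext fun i => (hi i).1
    have h9 : e = f := Finset.ext fun i => (hi i).2
    rw [h8, h9]

theorem W_lower {d : ℕ} (A : Finset (Fin d → ℕ)) (K : ℝ) (hK : 0 < K)
    (h : ∑ a ∈ A, ∏ i, (if a i = 0 then (1 : ℝ) else 2) ≤ K * A.card) :
    (A.card : ℝ) ≤ K ^ 3 * W A := by
  have h1 : ∀ a ∈ A, 4 * K - 3 * ∏ i, (if a i = 0 then (1 : ℝ) else 2) ≤
      K ^ 4 * ∏ i, (if a i = 0 then (1 : ℝ) else 1 / 8) := by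
    intro a _
    set x : ℝ := ∏ i, (if a i = 0 then (1 : ℝ) else 2) with hx
    have hx0 : 0 < x := by
      rw [hx]
      apply prod_pos
      intro i _
      split_ifs <;> norm_num
    have h2 : ∏ i, (if a i = 0 then (1 : ℝ) else 1 / 8) = (x ^ 3)⁻¹ := by
      rw [hx, ← prod_pow, ← prod_inv_distrib]
      apply prod_congr rfl
      intro i _
      split_ifs <;> norm_num
    rw [h2, ← div_eq_mul_inv, le_div_iff₀ (by positivity)]
    nlinarith [mul_nonneg (sq_nonneg (K - x)) (by positivity : 0 ≤ K ^ 2 + 2 * K * x + 3 * x ^ 2)]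
  have h2 := sum_le_sum h1
  have e1 : ∑ a ∈ A, (4 * K - 3 * ∏ i, (if a i = 0 then (1 : ℝ) else 2)) =
      4 * K * A.card - 3 * ∑ a ∈ A, ∏ i, (if a i = 0 then (1 : ℝ) else 2) := by
    rw [sum_sub_distrib, sum_const, nsmul_eq_mul, ← mul_sum]
    ring
  have e2 : ∑ a ∈ A, K ^ 4 * ∏ i, (if a i = 0 then (1 : ℝ) else 1 / 8) = K ^ 4 * W A := by
    unfold W
    rw [mul_sum]
  rw [e1, e2] at h2
  have h3 : K * (A.card : ℝ) ≤ K ^ 4 * W A := by linarith
  have h4 : K * (A.card : ℝ) ≤ K * (K ^ 3 * W A) := by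
    calc K * (A.card : ℝ) ≤ K ^ 4 * W A := h3
      _ = K * (K ^ 3 * W A) := by ring
  exact le_of_mul_le_mul_left h4 hK

/-- PFR for down-sets of `ℕ ^ d` -/
theorem core {d : ℕ} (A : Finset (Fin d → ℕ)) (hne : A.Nonempty) (hA : IsDown A) (K : ℝ)
    (hK : ((A + A).card : ℝ) ≤ K * A.card) :
    ∃ x ∈ A, (A.card : ℝ) ≤ K ^ 7 * ∏ i, ((x i : ℝ) + 1) ∧
      (3 / 2 : ℝ) ^ (univ.filter (fun i => x i ≠ 0)).card ≤ K ^ 8 := by
  classical
  have hc : (0 : ℝ) < A.card := by exact_mod_cast card_pos.2 hne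
  have hcc : (A.card : ℝ) ≤ ((A + A).card : ℝ) := by
    exact_mod_cast card_le_card_add_right hne
  have hK1 : 1 ≤ K := by
    by_contra hh
    push Not at hh
    nlinarith
  have hK0 : 0 < K := by linarith
  obtain ⟨x, hx, hmax⟩ := exists_max_image A (fun x => ∏ i, √((x i : ℝ) + 1)) hne
  have hp0 : 0 ≤ ∏ i, √((x i : ℝ) + 1) := prod_nonneg (fun i _ => Real.sqrt_nonneg _)
  have hp2 : (∏ i, √((x i : ℝ) + 1)) * (∏ i, √((x i : ℝ) + 1)) = ∏ i, ((x i : ℝ) + 1) := by
    rw [← prod_mul_distrib]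
    apply prod_congr rfl
    intro i _
    exact Real.mul_self_sqrt (by positivity)
  have h1 := main d A A _ _ hp0 hp0 hA hA hmax hmax
  rw [hp2] at h1
  have hr := rank_sum A hA
  have h2 := W_lower A K hK0 (hr.trans hK)
  have hP : 0 < ∏ i, ((x i : ℝ) + 1) := prod_pos (fun i _ => by positivity)
  have h3 : (A.card : ℝ) ≤ K ^ 7 * ∏ i, ((x i : ℝ) + 1) := by
    have h4 : (A.card : ℝ) * A.card ≤ (K ^ 3 * W A) * (K ^ 3 * W A) :=
      mul_le_mul h2 h2 hc.le (mul_nonneg (by positivity) (W_nonneg A))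
    have h5 : (A.card : ℝ) * A.card ≤ A.card * (K ^ 7 * ∏ i, ((x i : ℝ) + 1)) := by
      calc (A.card : ℝ) * A.card ≤ (K ^ 3 * W A) * (K ^ 3 * W A) := h4
        _ = K ^ 6 * (W A * W A) := by ring
        _ ≤ K ^ 6 * (((A + A).card : ℝ) * ∏ i, ((x i : ℝ) + 1)) :=
          mul_le_mul_of_nonneg_left h1 (by positivity)
        _ ≤ K ^ 6 * ((K * A.card) * ∏ i, ((x i : ℝ) + 1)) := by
          apply mul_le_mul_of_nonneg_left _ (by positivity)
          exact mul_le_mul_of_nonneg_right hK hP.le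
        _ = _ := by ring
    exact le_of_mul_le_mul_left h5 hc
  refine ⟨x, hx, h3, ?_⟩
  -- the rank
  have h6 : ∏ i, (∑ t ∈ range (x i + 1), (if t = 0 then (1 : ℝ) else 2)) ≤
      ∑ a ∈ A, ∏ i, (if a i = 0 then (1 : ℝ) else 2) := by
    rw [prod_univ_sum]
    apply sum_le_sum_of_subset_of_nonneg
    · intro y hy
      rw [Fintype.mem_piFinset] at hy
      apply hA x hx
      intro i
      have := hy i
      rw [mem_range] at this
      exact Nat.lt_succ_iff.1 this
    · intro y _ _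
      apply prod_nonneg
      intro i _
      split_ifs <;> norm_num
  have h7 : ∀ n : ℕ, ∑ t ∈ range (n + 1), (if t = 0 then (1 : ℝ) else 2) = 2 * n + 1 := by
    intro n
    rw [sum_range_succ']
    simp
    ring
  have h8 : (3 / 2 : ℝ) ^ (univ.filter (fun i => x i ≠ 0)).card * ∏ i, ((x i : ℝ) + 1) ≤
      ∏ i, (∑ t ∈ range (x i + 1), (if t = 0 then (1 : ℝ) else 2)) := by
    have h9 : (3 / 2 : ℝ) ^ (univ.filter (fun i => x i ≠ 0)).card =
        ∏ i, (if x i ≠ 0 then (3 / 2 : ℝ) else 1) := by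
      rw [prod_ite, prod_const, prod_const_one, mul_one]
    rw [h9, ← prod_mul_distrib]
    apply prod_le_prod
    · intro i _
      split_ifs <;> positivity
    · intro i _
      rw [h7]
      by_cases h10 : x i = 0
      · simp [h10]
      · rw [if_pos h10]
        have : (1 : ℝ) ≤ x i := by exact_mod_cast Nat.one_le_iff_ne_zero.2 h10
        linarith
  have h11 : (3 / 2 : ℝ) ^ (univ.filter (fun i => x i ≠ 0)).card * ∏ i, ((x i : ℝ) + 1) ≤
      K ^ 8 * ∏ i, ((x i : ℝ) + 1) := by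
    calc _ ≤ _ := h8
      _ ≤ _ := h6
      _ ≤ _ := hr
      _ ≤ K * A.card := hK
      _ ≤ K * (K ^ 7 * ∏ i, ((x i : ℝ) + 1)) := mul_le_mul_of_nonneg_left h3 hK0.le
      _ = _ := by ring
  exact le_of_mul_le_mul_right h11 hP

end Pool.Agent.H580.DS
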